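import Pool.Agent.Work.MP_274aea_ag_D34.Main1

open MvPolynomial Pool.Agent.GM16 Pool.Agent.GM34

namespace Pool.Agent.Results.MP_274aea_ag.OcticFamily

theorem result :
    ∃ g0 : MvPolynomial Mi ℂ, g0 ≠ 0 ∧ ∀ m, eval m g0 ≠ 0 → Anticanonical m ∧
      ∃ g : MvPolynomial Par ℂ, (∃ t, ContainsOctic m t ∧ eval t g ≠ 0) ∧
        ∀ t, ContainsOctic m t → eval t g ≠ 0 → IsSmoothGM t ∧ RationalChart t :=
  main1

end Pool.Agent.Results.MP_274aea_ag.OcticFamily
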