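import Pool.Agent.Work.MP_274aea_ag_Div.Main

open MvPolynomial Pool.Agent.GM16 Pool.Agent.GM34

namespace Pool.Agent.Results.MP_274aea_ag.OcticHypersurface

theorem result :
    ∃ F g : MvPolynomial Par ℂ, Irreducible F ∧ ¬ F ∣ g ∧
      ∀ t' : Par → ℂ, eval t' F = 0 → eval t' g ≠ 0 → IsSmoothGM t' ∧ RationalChart t' ∧
        ∃ m t, Anticanonical m ∧ ContainsOctic m t ∧ IsSmoothGM t ∧ Partner t t' :=
  Pool.Agent.GMDiv.main

end Pool.Agent.Results.MP_274aea_ag.OcticHypersurface
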