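import Pool.Agent.Work.MP_274aea_ag_Div.Odd

open MvPolynomial Pool.Agent.GM16

namespace Pool.Agent.Results.MP_274aea_ag.OddDivisors

theorem result (f : MvPolynomial Par ℂ) (hf : f ≠ 0) :
    ∃ F g : MvPolynomial Par ℂ, Irreducible F ∧ ¬ F ∣ f * g ∧
      ∀ t : Par → ℂ, eval t F = 0 → eval t g ≠ 0 → IsSmoothGM t ∧
      ∀ A : Matrix (Fin 2) (Fin 5) (MvPolynomial (Fin 6) ℂ),
        A = !![(1 : MvPolynomial (Fin 6) ℂ), 0, X 0, X 1, X 2; 0, 1, X 3, X 4, X 5] →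
      ∀ J : Ideal (MvPolynomial (Fin 6) ℂ),
        J = Ideal.span
          {∑ s : Idx, C (t (Sum.inl s)) * (A 0 s.1.1 * A 1 s.1.2 - A 0 s.1.2 * A 1 s.1.1),
           ∑ s : Idx, ∑ s' : Idx, C (t (Sum.inr (s, s'))) *
              (A 0 s.1.1 * A 1 s.1.2 - A 0 s.1.2 * A 1 s.1.1) *
              (A 0 s'.1.1 * A 1 s'.1.2 - A 0 s'.1.2 * A 1 s'.1.1)} →
        J.IsPrime ∧ ∃ ι : FractionRing (MvPolynomial (Fin 6) ℂ ⧸ J) →ₐ[ℂ]
            FractionRing (MvPolynomial (Fin 4) ℂ),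
          Odd (Module.finrank ι.range (FractionRing (MvPolynomial (Fin 4) ℂ))) := by
  obtain ⟨F, g, h1, h2, h⟩ := Pool.Agent.GMDiv.odd_main f hf
  refine ⟨F, g, h1, h2, fun t k1 k2 => ?_⟩
  obtain ⟨h4, h3⟩ := h t k1 k2
  refine ⟨h4, ?_⟩
  rintro A rfl J rfl
  rw [Pool.Agent.GM34.bridge_H, Pool.Agent.GM34.bridge_Q, Pool.Agent.GM34.bridge_pl]
  exact h3

end Pool.Agent.Results.MP_274aea_ag.OddDivisors
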