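import Pool.Agent.Work.MP_274aea_ag_D16.D5

open MvPolynomial Pool.Agent.GM16 Pool.Agent.GM34

namespace Pool.Agent.Results.MP_274aea_ag.ScrollPartners

theorem result :
    ∃ F : MvPolynomial Par ℂ, (F = 0 ∨ Irreducible F) ∧ ∀ f, ¬ F ∣ f →
      ∃ F1 F2 g : MvPolynomial Par ℂ,
        (∃ t', eval t' F1 = 0 ∧ eval t' F2 = 0 ∧ eval t' (f * g) ≠ 0) ∧
        ∀ t', eval t' F1 = 0 → eval t' F2 = 0 → eval t' g ≠ 0 → eval t' F = 0 ∧
          IsSmoothGM t' ∧ RationalChart t' ∧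
            ∃ t, ContainsScroll t ∧ IsSmoothGM t ∧ Partner t t' :=
  Pool.Agent.GMD16.main

end Pool.Agent.Results.MP_274aea_ag.ScrollPartners
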